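import Mathlib

/-!
Signed perfect sequence covering arrays: the algebra (for MP_5387a8_co).
-/

set_option autoImplicit false

open Finset

namespace Run7.h282.PS

variable {α : Type} [DecidableEq α] {R : Type} [Ring R]

/-- the sum of all words which are orderings of `U` (for `|U| = n`) -/
def s (X : α → R) : ℕ → Finset α → R
  | 0, _ => 1
  | n + 1, U => ∑ d ∈ U, X d * s X n (U.erase d)

/-- all orderings of `U` with `e` inserted, weight `w i` if `i` letters come before `e` -/
def J (X : α → R) : ℕ → (ℕ → ℤ) → Finset α → R → R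
  | 0, w, _, e => w 0 • e
  | n + 1, w, U, e => w 0 • (e * s X (n + 1) U) +
      ∑ d ∈ U, X d * J X n (fun i => w (i + 1)) (U.erase d) e

theorem J_comb (X : α → R) (n : ℕ) : ∀ (c : ℤ) (w : ℕ → ℤ) (U : Finset α) (e : R),
    J X n (fun i => c + w i) U e = c • J X n (fun _ => 1) U e + J X n w U e := by
  induction n with
  | zero => intro c w U e; simp only [J]; rw [add_smul, one_smul]
  | succ n ih =>
    intro c w U e
    simp only [J]
    rw [Finset.sum_congr rfl fun d _ => by rw [ih c (fun i => w (i + 1)) (U.erase d) e]]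
    rw [add_smul, one_smul, smul_add, Finset.smul_sum]
    simp only [mul_add, Finset.sum_add_distrib, mul_smul_comm]
    abel

theorem swap (U : Finset α) (F : α → α → R) :
    ∑ d ∈ U, ∑ d' ∈ U.erase d, F d d' = ∑ d' ∈ U, ∑ d ∈ U.erase d', F d d' := by
  refine Finset.sum_comm' ?_
  intro x y
  simp only [Finset.mem_erase]
  constructor
  · rintro ⟨h1, h2, h3⟩; exact ⟨⟨fun h => h2 h.symm, h1⟩, h3⟩
  · rintro ⟨⟨h1, h2⟩, h3⟩; exact ⟨h2, fun h => h1 h.symm, h3⟩

theorem deriv (X : α → R) (n : ℕ) : ∀ (U : Finset α) (e : R),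
    e * s X (n + 1) U - s X (n + 1) U * e =
      ∑ d ∈ U, J X n (fun _ => 1) (U.erase d) (e * X d - X d * e) := by
  induction n with
  | zero =>
    intro U e
    simp only [s, J, mul_one, one_smul]
    rw [Finset.mul_sum, Finset.sum_mul, Finset.sum_sub_distrib]
  | succ n ih =>
    intro U e
    have h1 : e * s X (n + 2) U - s X (n + 2) U * e =
        ∑ d ∈ U, ((e * X d - X d * e) * s X (n + 1) (U.erase d) +
          X d * (e * s X (n + 1) (U.erase d) - s X (n + 1) (U.erase d) * e)) := by
      rw [show s X (n + 2) U = ∑ d ∈ U, X d * s X (n + 1) (U.erase d) from rfl]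
      rw [Finset.mul_sum, Finset.sum_mul, ← Finset.sum_sub_distrib]
      refine Finset.sum_congr rfl fun d _ => ?_
      noncomm_ring
    have h2 : ∑ d ∈ U, X d * (e * s X (n + 1) (U.erase d) - s X (n + 1) (U.erase d) * e) =
        ∑ d ∈ U, ∑ d' ∈ U.erase d,
          X d * J X n (fun _ => 1) ((U.erase d).erase d') (e * X d' - X d' * e) :=
      Finset.sum_congr rfl fun d _ => by rw [ih (U.erase d) e, Finset.mul_sum]
    rw [h1, Finset.sum_add_distrib, h2]
    rw [swap U fun d d' => X d * J X n (fun _ => 1) ((U.erase d).erase d') (e * X d' - X d' * e)]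
    rw [← Finset.sum_add_distrib]
    refine Finset.sum_congr rfl fun d' _ => ?_
    simp only [J, one_smul]
    congr 1
    refine Finset.sum_congr rfl fun d _ => ?_
    rw [Finset.erase_right_comm]

theorem J_succ (X : α → R) (n : ℕ) : ∀ (w : ℕ → ℤ) (U : Finset α) (e : R),
    J X (n + 1) w U e = (∑ i ∈ range (n + 2), w i) • (s X (n + 1) U * e) +
      ∑ d ∈ U, J X n (fun i => ∑ i' ∈ range (i + 1), w i') (U.erase d) (e * X d - X d * e) := by
  induction n with
  | zero =>
    intro w U e
    simp only [s, J, mul_one]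
    rw [Finset.sum_range_succ, Finset.sum_range_one, ← Finset.smul_sum, Finset.sum_sub_distrib,
      add_smul, Finset.sum_mul, ← Finset.mul_sum, smul_sub]
    simp only [zero_add, mul_smul_comm, ← Finset.smul_sum]
    abel
  | succ n ih =>
    intro w U e
    have hw : (fun i : ℕ => ∑ i' ∈ range (i + 1 + 1), w i') =
        fun i : ℕ => w 0 + ∑ i' ∈ range (i + 1), w (i' + 1) := by
      funext i
      rw [Finset.sum_range_succ' w (i + 1)]
      ring
    have hL : J X (n + 2) w U e = w 0 • (e * s X (n + 2) U) +
        ((∑ i ∈ range (n + 2), w (i + 1)) • (s X (n + 2) U * e) +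
        ∑ d' ∈ U, ∑ d ∈ U.erase d', X d * J X n (fun i => ∑ i' ∈ range (i + 1), w (i' + 1))
          ((U.erase d').erase d) (e * X d' - X d' * e)) := by
      rw [show J X (n + 2) w U e = w 0 • (e * s X (n + 2) U) +
        ∑ d ∈ U, X d * J X (n + 1) (fun i => w (i + 1)) (U.erase d) e from rfl]
      congr 1
      rw [Finset.sum_congr rfl fun d (_ : d ∈ U) => by rw [ih (fun i => w (i + 1)) (U.erase d) e]]
      simp only [mul_add, Finset.sum_add_distrib, mul_smul_comm, Finset.mul_sum]
      rw [← Finset.smul_sum]
      congr 1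
      · congr 1
        rw [show s X (n + 2) U = ∑ d ∈ U, X d * s X (n + 1) (U.erase d) from rfl, Finset.sum_mul]
        refine Finset.sum_congr rfl fun d _ => ?_
        rw [mul_assoc]
      · rw [swap U fun d d' => X d * J X n (fun i => ∑ i' ∈ range (i + 1), w (i' + 1))
          ((U.erase d).erase d') (e * X d' - X d' * e)]
        refine Finset.sum_congr rfl fun d' _ => Finset.sum_congr rfl fun d _ => ?_
        rw [Finset.erase_right_comm]
    have hR : ∑ d' ∈ U, J X (n + 1) (fun i => ∑ i' ∈ range (i + 1), w i') (U.erase d')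
        (e * X d' - X d' * e) =
        w 0 • (∑ d' ∈ U, J X (n + 1) (fun _ => 1) (U.erase d') (e * X d' - X d' * e)) +
        ∑ d' ∈ U, ∑ d ∈ U.erase d', X d * J X n (fun i => ∑ i' ∈ range (i + 1), w (i' + 1))
          ((U.erase d').erase d) (e * X d' - X d' * e) := by
      rw [Finset.smul_sum, ← Finset.sum_add_distrib]
      refine Finset.sum_congr rfl fun d' _ => ?_
      simp only [J, hw]
      rw [Finset.sum_congr rfl fun d (_ : d ∈ U.erase d') => by
        rw [J_comb X n (w 0) (fun i => ∑ i' ∈ range (i + 1), w (i' + 1))]]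
      simp only [mul_add, Finset.sum_add_distrib, mul_smul_comm, zero_add, Finset.range_one,
        Finset.sum_singleton, one_smul, smul_add, Finset.smul_sum]
      abel
    rw [hL, hR, ← deriv X (n + 1) U e, Finset.sum_range_succ' w (n + 2), add_smul, smul_sub]
    abel

theorem s_insert (X : α → R) (n : ℕ) : ∀ (U : Finset α) (a : α), a ∉ U → U.card = n →
    s X (n + 1) (insert a U) = J X n (fun _ => 1) U (X a) := by
  induction n with
  | zero =>
    intro U a _ hU
    rw [Finset.card_eq_zero] at hU
    subst hU
    simp [s, J]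
  | succ n ih =>
    intro U a ha hU
    rw [show s X (n + 2) (insert a U) =
      ∑ d ∈ insert a U, X d * s X (n + 1) ((insert a U).erase d) from rfl]
    rw [Finset.sum_insert ha, Finset.erase_insert ha]
    simp only [J, one_smul]
    congr 1
    refine Finset.sum_congr rfl fun d hd => ?_
    have h1 : (insert a U).erase d = insert a (U.erase d) := by
      rw [Finset.erase_insert_of_ne]
      rintro rfl; exact ha hd
    rw [h1, ih (U.erase d) a (fun h => ha (Finset.mem_of_mem_erase h))
      (by rw [Finset.card_erase_of_mem hd, hU]; rfl)]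

theorem J_one (X : α → R) (n : ℕ) : ∀ (U : Finset α),
    J X n (fun _ => 1) U (1 : R) = (n + 1) • s X n U := by
  induction n with
  | zero => intro U; simp [J, s]
  | succ n ih =>
    intro U
    simp only [J, one_smul, one_mul]
    rw [Finset.sum_congr rfl fun d (_ : d ∈ U) => by rw [ih (U.erase d)]]
    simp only [mul_smul_comm]
    rw [← Finset.smul_sum]
    rw [show s X (n + 1) U = ∑ d ∈ U, X d * s X n (U.erase d) from rfl]
    rw [add_smul (n + 1) 1, one_smul]
    abel

theorem s_congr (X X' : α → R) (n : ℕ) : ∀ (U : Finset α), (∀ d ∈ U, X d = X' d) →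
    s X n U = s X' n U := by
  induction n with
  | zero => intro U _; rfl
  | succ n ih =>
    intro U h
    simp only [s]
    exact Finset.sum_congr rfl fun d hd => by
      rw [h d hd, ih (U.erase d) fun x hx => h x (Finset.mem_of_mem_erase hx)]

theorem J_congr (X X' : α → R) (n : ℕ) : ∀ (w : ℕ → ℤ) (U : Finset α) (e : R),
    (∀ d ∈ U, X d = X' d) → J X n w U e = J X' n w U e := by
  induction n with
  | zero => intro w U e _; rfl
  | succ n ih =>
    intro w U e h
    simp only [J]
    rw [s_congr X X' (n + 1) U h]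
    congr 1
    exact Finset.sum_congr rfl fun d hd => by
      rw [h d hd, ih _ (U.erase d) e fun x hx => h x (Finset.mem_of_mem_erase hx)]

theorem map_s {R' : Type} [Ring R'] (f : R →+* R') (X : α → R) (n : ℕ) : ∀ (U : Finset α),
    f (s X n U) = s (fun d => f (X d)) n U := by
  induction n with
  | zero => intro U; simp [s]
  | succ n ih =>
    intro U
    simp only [s, map_sum, map_mul]
    exact Finset.sum_congr rfl fun d _ => by rw [ih]

theorem map_J {R' : Type} [Ring R'] (f : R →+* R') (X : α → R) (n : ℕ) : ∀ (w : ℕ → ℤ)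
    (U : Finset α) (e : R), f (J X n w U e) = J (fun d => f (X d)) n w U (f e) := by
  induction n with
  | zero => intro w U e; simp [J]
  | succ n ih =>
    intro w U e
    simp only [J, map_add, map_sum, map_mul, map_zsmul, map_s]
    congr 1
    exact Finset.sum_congr rfl fun d _ => by rw [ih]

end Run7.h282.PS
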