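import Mathlib

/-!
Perfect sequence covering arrays (for MP_5387a8_co).
-/

set_option autoImplicit false

namespace Run7.h282.PS

open Classical in
/-- `P` is a `PSCA(n, k, lam)`: a multiset of permutations of `n` letters, written as lists of length `n`
without repetitions, such that every list `y` of `k` different letters is a subsequence of exactly `lam`
members of `P`, counted with multiplicity. -/
def IsPSCA (n k lam : ℕ) (P : Multiset (List (Fin n))) : Prop :=
  (∀ x ∈ P, x.Nodup ∧ x.length = n) ∧
  ∀ y : List (Fin n), y.Nodup → y.length = k → P.countP (fun x => y.Sublist x) = lam

end Run7.h282.PS
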