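import Pool.Agent.Run7.h282.PS.Alg

/-!
Signed perfect sequence covering arrays exist for all parameters (for MP_5387a8_co).
-/

set_option autoImplicit false

open Finset

namespace Run7.h282.PS

variable {α : Type} [DecidableEq α]

abbrev A (α : Type) := MonoidAlgebra ℤ (FreeMonoid α)

noncomputable def word (l : List α) : A α := MonoidAlgebra.of ℤ (FreeMonoid α) (FreeMonoid.ofList l)

noncomputable def X (d : α) : A α := word [d]

omit [DecidableEq α] in
theorem word_mul (l l' : List α) : word l * word l' = word (l ++ l') := by
  unfold word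
  rw [← map_mul]
  rfl

omit [DecidableEq α] in
theorem word_nil : word ([] : List α) = 1 := by
  unfold word
  exact map_one _

noncomputable def rho (T : Finset α) : A α →+* A α :=
  MonoidAlgebra.mapDomainRingHom ℤ
    (FreeMonoid.lift (fun d : α => if d ∈ T then FreeMonoid.of d else 1))

theorem rho_X (T : Finset α) (d : α) : rho T (X d) = if d ∈ T then X d else 1 := by
  unfold rho X word
  rw [MonoidAlgebra.of_apply, MonoidAlgebra.mapDomainRingHom_apply, MonoidAlgebra.mapDomain_single]
  have : (FreeMonoid.lift fun d : α => if d ∈ T then FreeMonoid.of d else 1) (FreeMonoid.ofList [d]) =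
      if d ∈ T then FreeMonoid.of d else 1 := by
    exact FreeMonoid.lift_eval_of _ _
  rw [this]
  split_ifs
  · rfl
  · rfl

theorem rho_word (T : Finset α) (l : List α) : rho T (word l) = word (l.filter (· ∈ T)) := by
  induction l with
  | nil => rw [List.filter_nil, word_nil, map_one]
  | cons d l ih =>
    rw [show word (d :: l) = X d * word l by rw [X, word_mul]; rfl, map_mul, ih, rho_X]
    by_cases hd : d ∈ T
    · rw [if_pos hd, List.filter_cons_of_pos (by simpa using hd), X, word_mul]; rfl
    · rw [if_neg hd, List.filter_cons_of_neg (by simpa using hd), one_mul]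

noncomputable def Gd (S : Finset α) : Submodule ℤ (A α) :=
  Submodule.span ℤ {W | ∃ l : List α, l.Nodup ∧ l.toFinset = S ∧ W = word l}

theorem Gd_mul {S S' : Finset α} (h : Disjoint S S') {W W' : A α} (hW : W ∈ Gd S)
    (hW' : W' ∈ Gd S') : W * W' ∈ Gd (S ∪ S') := by
  have h1 : Gd S * Gd S' ≤ Gd (S ∪ S') := by
    unfold Gd
    rw [Submodule.span_mul_span, Submodule.span_le]
    rintro _ ⟨_, ⟨l, hl, hlS, rfl⟩, _, ⟨l', hl', hlS', rfl⟩, rfl⟩
    refine Submodule.subset_span ⟨l ++ l', ?_, ?_, word_mul l l'⟩
    · refine List.Nodup.append hl hl' ?_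
      intro x hx hx'
      exact Finset.disjoint_left.1 h (by rw [← hlS]; exact List.mem_toFinset.2 hx)
        (by rw [← hlS']; exact List.mem_toFinset.2 hx')
    · rw [List.toFinset_append, hlS, hlS']
  exact h1 (Submodule.mul_mem_mul hW hW')

theorem word_mem (l : List α) (hl : l.Nodup) : word l ∈ Gd l.toFinset :=
  Submodule.subset_span ⟨l, hl, rfl, rfl⟩

theorem X_mem (a : α) : X a ∈ Gd {a} := by
  have := word_mem [a] (List.nodup_singleton a)
  simpa [X] using this

theorem s_mem (n : ℕ) : ∀ U : Finset α, U.card = n → s X n U ∈ Gd U := by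
  induction n with
  | zero =>
    intro U hU
    rw [Finset.card_eq_zero] at hU
    subst hU
    have := word_mem ([] : List α) List.nodup_nil
    rw [word_nil] at this
    simpa [s] using this
  | succ n ih =>
    intro U hU
    simp only [s]
    refine Submodule.sum_mem _ fun d hd => ?_
    have h1 := Gd_mul (S := {d}) (S' := U.erase d) (by simp) (X_mem d)
      (ih (U.erase d) (by rw [Finset.card_erase_of_mem hd, hU]; rfl))
    have h2 : {d} ∪ U.erase d = U := by
      rw [Finset.singleton_union, Finset.insert_erase hd]
    rwa [h2] at h1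

theorem rho_rho {T T' : Finset α} (h : T ⊆ T') {S : Finset α} {W : A α} (hW : W ∈ Gd S) :
    rho T (rho T' W) = rho T W := by
  unfold Gd at hW
  induction hW using Submodule.span_induction with
  | mem W hW =>
    obtain ⟨l, -, -, rfl⟩ := hW
    rw [rho_word, rho_word, rho_word, List.filter_filter]
    congr 1
    apply List.filter_congr
    intro x _
    by_cases hx : x ∈ T
    · simp [hx, h hx]
    · simp [hx]
  | zero => simp
  | add x y _ _ hx hy => rw [map_add, map_add, map_add, hx, hy]
  | smul c x _ hx => rw [map_zsmul, map_zsmul, map_zsmul, hx]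

/-- `W` is a signed system: a combination of orderings of `S` whose restriction to every `k`-subset is the
sum of all orderings -/
def Sys (k : ℕ) (S : Finset α) (W : A α) : Prop :=
  W ∈ Gd S ∧ ∀ T : Finset α, (T ∩ S).card = k → rho T W = s X k (T ∩ S)

theorem exR (k : ℕ) (hB : ∀ j, j < k → ∀ M : Finset α, j ≤ M.card → ∃ B, Sys j M B) :
    ∀ j, j ≤ k → ∀ (w : ℕ → ℤ) (M D : Finset α) (e : A α), Disjoint D M → j ≤ M.card → e ∈ Gd D →
    ∃ Z ∈ Gd (D ∪ M), ∀ T : Finset α,
      ((∀ d ∈ M, rho T e * rho T (X d) = rho T (X d) * rho T e) → rho T Z = 0) ∧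
      ((T ∩ M).card = j → (∑ i ∈ range (j + 1), w i) • (s X j (T ∩ M) * rho T e) + rho T Z =
        J X j w (T ∩ M) (rho T e)) := by
  intro j
  induction j with
  | zero =>
    intro _ w M D e _ _ _
    refine ⟨0, Submodule.zero_mem _, fun T => ⟨fun _ => map_zero _, fun _ => ?_⟩⟩
    simp [s, J]
  | succ j ih =>
    intro hjk w M D e hDM hjM he
    have hV : ∀ d ∈ M, ∃ V ∈ Gd (D ∪ M), ∀ T : Finset α,
        (rho T e * rho T (X d) = rho T (X d) * rho T e → rho T V = 0) ∧
        ((T ∩ M.erase d).card = j → rho T V =
          J X j (fun i => ∑ i' ∈ range (i + 1), w i') (T ∩ M.erase d)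
            (rho T e * rho T (X d) - rho T (X d) * rho T e)) := by
      intro d hd
      have hdD : d ∉ D := fun h => Finset.disjoint_left.1 hDM h hd
      have hcard : j ≤ (M.erase d).card := by rw [Finset.card_erase_of_mem hd]; omega
      have he' : e * X d - X d * e ∈ Gd (insert d D) := by
        refine Submodule.sub_mem _ ?_ ?_
        · have := Gd_mul (S := D) (S' := {d}) (by simpa using hdD) he (X_mem d)
          rwa [show D ∪ {d} = insert d D by rw [Finset.union_comm]; rfl] at this
        · have := Gd_mul (S := {d}) (S' := D) (by simpa using hdD) (X_mem d) he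
          rwa [show {d} ∪ D = insert d D from rfl] at this
      have hdis : Disjoint (insert d D) (M.erase d) := by
        rw [Finset.disjoint_left]
        intro x hx hx'
        rw [Finset.mem_erase] at hx'
        rw [Finset.mem_insert] at hx
        rcases hx with hx | hx
        · exact hx'.1 hx
        · exact Finset.disjoint_left.1 hDM hx hx'.2
      have hun : insert d D ∪ M.erase d = D ∪ M := by
        ext x
        simp only [Finset.mem_union, Finset.mem_insert, Finset.mem_erase]
        constructor
        · rintro ((rfl | h) | ⟨_, h⟩)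
          · exact Or.inr hd
          · exact Or.inl h
          · exact Or.inr h
        · rintro (h | h)
          · exact Or.inl (Or.inr h)
          · by_cases hx : x = d
            · exact Or.inl (Or.inl hx)
            · exact Or.inr ⟨hx, h⟩
      obtain ⟨Z, hZ1, hZ2⟩ := ih (by omega) (fun i => ∑ i' ∈ range (i + 1), w i') (M.erase d)
        (insert d D) (e * X d - X d * e) hdis hcard he'
      obtain ⟨B, hB1, hB2⟩ := hB j (by omega) (M.erase d) hcard
      rw [hun] at hZ1
      have hmem : B * (e * X d - X d * e) ∈ Gd (D ∪ M) := by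
        have := Gd_mul hdis.symm hB1 he'
        rwa [Finset.union_comm, hun] at this
      refine ⟨(∑ i ∈ range (j + 1), (fun i => ∑ i' ∈ range (i + 1), w i') i) •
        (B * (e * X d - X d * e)) + Z, Submodule.add_mem _ (Submodule.smul_mem _ _ hmem) hZ1,
        fun T => ⟨fun hc => ?_, fun hc => ?_⟩⟩
      · have h0 : rho T (e * X d - X d * e) = 0 := by
          rw [map_sub, map_mul, map_mul, hc, sub_self]
        have h1 := (hZ2 T).1 (by rw [h0]; simp)
        rw [map_add, map_zsmul, map_mul, h0, mul_zero, smul_zero, h1, add_zero]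
      · have h1 := (hZ2 T).2 hc
        rw [map_add, map_zsmul, map_mul, hB2 T hc, h1, map_sub, map_mul, map_mul]
    choose! V hV1 hV2 using hV
    refine ⟨∑ d ∈ M, V d, Submodule.sum_mem _ hV1, fun T => ⟨fun hc => ?_, fun hc => ?_⟩⟩
    · rw [map_sum]
      exact Finset.sum_eq_zero fun d hd => (hV2 d hd T).1 (hc d hd)
    · rw [map_sum, J_succ]
      congr 1
      have h1 : ∑ d ∈ T ∩ M, rho T (V d) = ∑ d ∈ M, rho T (V d) := by
        refine Finset.sum_subset Finset.inter_subset_right ?_
        intro d hd hdn
        have hdT : d ∉ T := fun h => hdn (Finset.mem_inter.2 ⟨h, hd⟩)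
        refine (hV2 d hd T).1 ?_
        rw [rho_X, if_neg hdT, one_mul, mul_one]
      rw [← h1]
      refine Finset.sum_congr rfl fun d hd => ?_
      have hdT := (Finset.mem_inter.1 hd).1
      have hdM := (Finset.mem_inter.1 hd).2
      have h2 : T ∩ M.erase d = (T ∩ M).erase d := by
        rw [Finset.inter_erase]
      have h3 := (hV2 d hdM T).2 (by rw [h2, Finset.card_erase_of_mem hd, hc]; rfl)
      rw [h3, h2, rho_X, if_pos hdT]

theorem restrict (m : ℕ) (S T : Finset α) (W : A α) (hW : Sys (m + 1) S W) (hT : (T ∩ S).card = m)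
    (hS : m + 1 ≤ S.card) : rho T W = (m + 1) • s X m (T ∩ S) := by
  obtain ⟨b, hbS, hbT⟩ : ∃ b ∈ S, b ∉ T := by
    by_contra hcon
    push Not at hcon
    have : T ∩ S = S := Finset.inter_eq_right.2 hcon
    rw [this] at hT
    omega
  have hb : b ∉ T ∩ S := fun h => hbT (Finset.mem_inter.1 h).1
  have h1 : insert b T ∩ S = insert b (T ∩ S) := Finset.insert_inter_of_mem hbS
  have h2 := hW.2 (insert b T) (by rw [h1, Finset.card_insert_of_notMem hb, hT])
  rw [h1, s_insert X m (T ∩ S) b hb hT] at h2
  rw [← rho_rho (Finset.subset_insert b T) hW.1, h2, map_J, rho_X, if_neg hbT]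
  rw [J_congr (fun d => rho T (X d)) X m _ (T ∩ S) 1 fun d hd => by
    rw [rho_X, if_pos (Finset.mem_inter.1 hd).1]]
  exact J_one X m (T ∩ S)

theorem exists_sys : ∀ k : ℕ, ∀ S : Finset α, k ≤ S.card → ∃ W, Sys k S W := by
  intro k
  induction k using Nat.strong_induction_on with
  | _ k ihk =>
    rcases k with _ | m
    · intro S _
      refine ⟨word S.toList, ?_, fun T hT => ?_⟩
      · have := word_mem S.toList S.nodup_toList
        rwa [Finset.toList_toFinset] at this
      · rw [rho_word, show s X 0 (T ∩ S) = (1 : A α) from rfl, ← word_nil]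
        congr 1
        rw [List.filter_eq_nil_iff]
        intro x hx
        rw [Finset.mem_toList] at hx
        rw [Finset.card_eq_zero] at hT
        have : x ∉ T := fun h => by
          have : x ∈ T ∩ S := Finset.mem_inter.2 ⟨h, hx⟩
          rw [hT] at this
          exact absurd this (Finset.notMem_empty x)
        simpa using this
    · intro S
      induction S using Finset.induction_on with
      | empty => intro h; simp at h
      | insert a S ha ihS =>
        intro hcard
        rw [Finset.card_insert_of_notMem ha] at hcard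
        by_cases h : m + 1 ≤ S.card
        · obtain ⟨W', hW'⟩ := ihS h
          obtain ⟨Z, hZ1, hZ2⟩ := exR (m + 1) (fun j hj M hM => ihk j hj M hM) m (by omega)
            (fun _ => 1) S {a} (X a) (by simpa using ha) (by omega) (X_mem a)
          refine ⟨W' * X a + Z, ?_, fun T hT => ?_⟩
          · refine Submodule.add_mem _ ?_ ?_
            · have := Gd_mul (S := S) (S' := {a}) (by simpa using ha) hW'.1 (X_mem a)
              rwa [show S ∪ {a} = insert a S by rw [Finset.union_comm]; rfl] at this
            · rwa [show {a} ∪ S = insert a S from rfl] at hZ1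
          · by_cases haT : a ∈ T
            · have h1 : T ∩ insert a S = insert a (T ∩ S) := Finset.inter_insert_of_mem haT
              have h2 : a ∉ T ∩ S := fun h => ha (Finset.mem_inter.1 h).2
              rw [h1, Finset.card_insert_of_notMem h2] at hT
              have h3 : (T ∩ S).card = m := by omega
              have h4 := (hZ2 T).2 h3
              rw [rho_X, if_pos haT] at h4
              rw [h1, s_insert X m (T ∩ S) a h2 h3, ← h4, map_add, map_mul,
                restrict m S T W' hW' h3 h, rho_X, if_pos haT]
              congr 1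
              rw [Finset.sum_const, Finset.card_range, smul_mul_assoc]
              simp
            · have h1 : T ∩ insert a S = T ∩ S := Finset.inter_insert_of_notMem haT
              rw [h1] at hT ⊢
              have h2 := (hZ2 T).1 (fun d _ => by rw [rho_X T a, if_neg haT, one_mul, mul_one])
              rw [map_add, map_mul, hW'.2 T hT, rho_X, if_neg haT, mul_one, h2, add_zero]
        · have h1 : (insert a S).card = m + 1 := by rw [Finset.card_insert_of_notMem ha]; omega
          refine ⟨s X (m + 1) (insert a S), s_mem _ _ h1, fun T hT => ?_⟩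
          have h2 : T ∩ insert a S = insert a S :=
            Finset.eq_of_subset_of_card_le Finset.inter_subset_right (by omega)
          rw [h2, map_s]
          refine s_congr _ _ _ _ fun d hd => ?_
          rw [← h2] at hd
          rw [rho_X, if_pos (Finset.mem_inter.1 hd).1]

end Run7.h282.PS
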