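import Pool.Agent.Run7.h282.PS.Ex
import Pool.Agent.Run7.h282.PS.Def

/-!
`PSCA(n, k, lam)` exists for all large `lam` (for MP_5387a8_co).
-/

set_option autoImplicit false

open Finset

namespace Run7.h282.PS

variable {α : Type} [DecidableEq α]

/-- coefficient of the word `y` -/
noncomputable def co (y : List α) : A α →ₗ[ℤ] ℤ :=
  (Finsupp.lapply (FreeMonoid.ofList y)).comp (MonoidAlgebra.coeffLinearEquiv ℤ).toLinearMap

omit [DecidableEq α] in
theorem co_apply (y : List α) (W : A α) : co y W = W.coeff (FreeMonoid.ofList y) := rfl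

theorem co_word (y l : List α) : co y (word l) = if l = y then 1 else 0 := by
  rw [co_apply, word, MonoidAlgebra.of_apply, MonoidAlgebra.coeff_single]
  by_cases h : l = y
  · subst h
    rw [if_pos rfl]
    exact Finsupp.single_eq_same
  · rw [if_neg h]
    have h' : FreeMonoid.ofList y ≠ FreeMonoid.ofList l :=
      fun h' => h (FreeMonoid.ofList.injective h').symm
    exact Finsupp.single_eq_of_ne h'

omit [DecidableEq α] in
theorem co_X_mul_self (d : α) (y : List α) (W : A α) : co (d :: y) (X d * W) = co y W := by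
  rw [co_apply, co_apply, X, word, MonoidAlgebra.of_apply,
    MonoidAlgebra.single_mul_apply_aux (FreeMonoid.ofList y), one_mul]
  intro m' _
  constructor
  · intro h
    have h1 : FreeMonoid.toList (FreeMonoid.ofList [d] * m') =
      FreeMonoid.toList (FreeMonoid.ofList (d :: y)) := congrArg _ h
    have h2 : d :: FreeMonoid.toList m' = d :: y := h1
    have h3 := (List.cons.inj h2).2
    exact h3
  · rintro rfl; rfl

omit [DecidableEq α] in
theorem co_X_mul_ne (c d : α) (hcd : c ≠ d) (y : List α) (W : A α) : co (c :: y) (X d * W) = 0 := by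
  rw [co_apply, X, word, MonoidAlgebra.of_apply]
  apply MonoidAlgebra.single_mul_apply_of_not_exists_mul
  rintro ⟨m', h⟩
  have h1 : FreeMonoid.toList (FreeMonoid.ofList (c :: y)) =
    FreeMonoid.toList (FreeMonoid.ofList [d] * m') := congrArg _ h
  have h2 : c :: y = d :: FreeMonoid.toList m' := h1
  exact hcd (List.cons.inj h2).1

theorem co_s : ∀ (y : List α) (m : ℕ) (U : Finset α), y.Nodup → y.toFinset = U → U.card = m →
    co y (s X m U) = 1 := by
  intro y
  induction y with
  | nil =>
    intro m U _ hU hc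
    rw [List.toFinset_nil] at hU
    subst hU
    rw [Finset.card_empty] at hc
    subst hc
    rw [show s X 0 (∅ : Finset α) = (1 : A α) from rfl, ← word_nil, co_word, if_pos rfl]
  | cons c y ih =>
    intro m U hy hU hc
    rw [List.nodup_cons] at hy
    have hcU : c ∈ U := by rw [← hU]; simp
    rcases m with _ | m
    · rw [Finset.card_eq_zero] at hc
      rw [hc] at hcU
      exact absurd hcU (Finset.notMem_empty c)
    · have h1 : U.erase c = y.toFinset := by
        rw [← hU, List.toFinset_cons, Finset.erase_insert]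
        rw [List.mem_toFinset]; exact hy.1
      rw [show s X (m + 1) U = ∑ d ∈ U, X d * s X m (U.erase d) from rfl, map_sum]
      rw [Finset.sum_eq_single_of_mem c hcU fun d _ hd => co_X_mul_ne c d (Ne.symm hd) _ _]
      rw [co_X_mul_self]
      exact ih m (U.erase c) hy.2 h1.symm (by rw [Finset.card_erase_of_mem hcU, hc]; rfl)

theorem del (m : ℕ) (V T : Finset α) (b : α) (hbT : b ∉ T) (hV : V ⊆ T) (hc : V.card = m) :
    rho T (s X (m + 1) (insert b V)) = (m + 1) • s X m V := by
  rw [s_insert X m V b (fun h => hbT (hV h)) hc, map_J, rho_X, if_neg hbT]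
  rw [J_congr (fun d => rho T (X d)) X m _ V 1 fun d hd => by rw [rho_X, if_pos (hV hd)]]
  exact J_one X m V

theorem full (t : ℕ) : ∀ j : ℕ, ∃ c : ℕ, 0 < c ∧ ∀ U T : Finset α, (T ∩ U).card = j →
    U.card = j + t → rho T (s X (j + t) U) = c • s X j (T ∩ U) := by
  induction t with
  | zero =>
    intro j
    refine ⟨1, one_pos, fun U T hT hU => ?_⟩
    have h2 : T ∩ U = U := Finset.eq_of_subset_of_card_le Finset.inter_subset_right (by omega)
    rw [h2, map_s, one_smul]
    refine s_congr _ _ _ _ fun d hd => ?_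
    rw [← h2] at hd
    rw [rho_X, if_pos (Finset.mem_inter.1 hd).1]
  | succ t ih =>
    intro j
    obtain ⟨c, hc0, hc⟩ := ih (j + 1)
    refine ⟨c * (j + 1), by positivity, fun U T hT hU => ?_⟩
    obtain ⟨b, hbU, hbT⟩ : ∃ b ∈ U, b ∉ T := by
      by_contra hcon
      push Not at hcon
      have : T ∩ U = U := Finset.inter_eq_right.2 hcon
      rw [this] at hT
      omega
    have hb : b ∉ T ∩ U := fun h => hbT (Finset.mem_inter.1 h).1
    have h1 : insert b T ∩ U = insert b (T ∩ U) := Finset.insert_inter_of_mem hbU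
    have h2 := hc U (insert b T) (by rw [h1, Finset.card_insert_of_notMem hb, hT]) (by omega)
    rw [h1] at h2
    have h3 : s X (j + (t + 1)) U ∈ Gd U := s_mem _ U hU
    rw [← rho_rho (Finset.subset_insert b T) h3]
    rw [show j + (t + 1) = j + 1 + t by ring, h2, map_nsmul,
      del j (T ∩ U) T b hbT Finset.inter_subset_left hT, smul_smul]

theorem expand (S : Finset α) (F : Finset (List α)) (hF : ∀ l, l ∈ F ↔ l.Nodup ∧ l.toFinset = S)
    {W : A α} (hW : W ∈ Gd S) : W = ∑ l ∈ F, co l W • word l := by
  unfold Gd at hW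
  induction hW using Submodule.span_induction with
  | mem W hW =>
    obtain ⟨l0, h1, h2, rfl⟩ := hW
    rw [Finset.sum_eq_single_of_mem l0 ((hF l0).2 ⟨h1, h2⟩)]
    · rw [co_word, if_pos rfl, one_smul]
    · intro l _ hl
      rw [co_word, if_neg (Ne.symm hl), zero_smul]
  | zero => simp
  | add x y _ _ hx hy =>
    simp only [map_add, add_smul, Finset.sum_add_distrib]
    rw [← hx, ← hy]
  | smul c x _ hx =>
    simp only [map_smul, smul_assoc]
    rw [← Finset.smul_sum, ← hx]

theorem sublist_iff (T : Finset α) (x y : List α) (hx : x.Nodup) (hT : y.toFinset = T) :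
    (x.filter (· ∈ T)) = y ↔ y.Sublist x := by
  constructor
  · intro h
    rw [← h]
    exact List.filter_sublist
  · intro h
    have h1 : y.filter (· ∈ T) = y := by
      rw [List.filter_eq_self]
      intro a ha
      have : a ∈ T := by rw [← hT]; exact List.mem_toFinset.2 ha
      simpa using this
    have h2 := h.filter (fun a => decide (a ∈ T))
    rw [h1] at h2
    refine (List.Sublist.eq_of_length_le h2 ?_).symm
    have h3 : (x.filter (· ∈ T)).Nodup := hx.filter _
    rw [← List.toFinset_card_of_nodup h3]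
    refine le_trans (Finset.card_le_card (?_ : _ ⊆ y.toFinset)) y.toFinset_card_le
    intro a ha
    rw [List.mem_toFinset, List.mem_filter] at ha
    rw [hT]
    simpa using ha.2

open Classical in
theorem exists_psca (n k : ℕ) (hk : k ≤ n) : ∃ L : ℕ, ∀ lam : ℕ, L ≤ lam →
    ∃ P : Multiset (List (Fin n)), IsPSCA n k lam P := by
  obtain ⟨W, hW1, hW2⟩ := exists_sys k (Finset.univ : Finset (Fin n)) (by simpa using hk)
  obtain ⟨c, hc0, hc⟩ := full (α := Fin n) (n - k) k
  have hkn : k + (n - k) = n := by omega
  rw [hkn] at hc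
  have hfin : {l : List (Fin n) | l.Nodup ∧ l.toFinset = Finset.univ}.Finite := by
    refine (List.finite_length_eq (Fin n) n).subset fun l hl => ?_
    have := List.toFinset_card_of_nodup hl.1
    rw [hl.2, Finset.card_univ, Fintype.card_fin] at this
    exact this.symm
  obtain ⟨F, hF'⟩ : ∃ F : Finset (List (Fin n)), ∀ l, l ∈ F ↔ l.Nodup ∧ l.toFinset = Finset.univ :=
    ⟨hfin.toFinset, fun l => by rw [Set.Finite.mem_toFinset]; rfl⟩
  set G : A (Fin n) := s X n Finset.univ with hG
  have hG1 : G ∈ Gd (Finset.univ : Finset (Fin n)) := s_mem n _ (by simp)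
  set K : ℕ := ∑ l ∈ F, (co l W).natAbs with hK
  refine ⟨c * (c * K), fun lam hlam => ?_⟩
  set r : ℕ := lam % c with hr
  set q : ℕ := lam / c with hq
  have hrc : r < c := Nat.mod_lt _ hc0
  have hqK : c * K ≤ q := (Nat.le_div_iff_mul_le hc0).2 (by rw [mul_comm]; exact hlam)
  have hlam2 : (lam : ℤ) = r + q * c := by
    have := Nat.div_add_mod lam c
    have h2 : lam = r + q * c := by rw [hr, hq]; nlinarith
    exact_mod_cast h2
  set Y : A (Fin n) := (r : ℤ) • W + (q : ℤ) • G with hY
  have hY1 : Y ∈ Gd (Finset.univ : Finset (Fin n)) :=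
    Submodule.add_mem _ (Submodule.smul_mem _ _ hW1) (Submodule.smul_mem _ _ hG1)
  have hpos : ∀ l ∈ F, 0 ≤ co l Y := by
    intro l hl
    have h1 : co l G = 1 := co_s l n Finset.univ ((hF' l).1 hl).1 ((hF' l).1 hl).2 (by simp)
    rw [hY, map_add, map_smul, map_smul, h1]
    have h2 : (co l W).natAbs ≤ K := Finset.single_le_sum
      (f := fun l => (co l W).natAbs) (fun _ _ => Nat.zero_le _) hl
    have h3 : -(K : ℤ) ≤ co l W := by
      have : |co l W| ≤ K := by rw [Int.abs_eq_natAbs]; exact_mod_cast h2
      exact (abs_le.1 this).1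
    have h4 : (r : ℤ) * K ≤ q := by
      have : r * K ≤ q := (Nat.mul_le_mul_right K hrc.le).trans hqK
      exact_mod_cast this
    simp only [smul_eq_mul, mul_one]
    nlinarith
  refine ⟨∑ l ∈ F, (co l Y).toNat • ({l} : Multiset (List (Fin n))), ?_, ?_⟩
  · intro x hx
    rw [Multiset.mem_sum] at hx
    obtain ⟨l, hl, hxl⟩ := hx
    have h1 := Multiset.mem_of_mem_nsmul hxl
    rw [Multiset.mem_singleton] at h1
    subst h1
    have h2 := (hF' x).1 hl
    refine ⟨h2.1, ?_⟩
    have := List.toFinset_card_of_nodup h2.1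
    rw [h2.2, Finset.card_univ, Fintype.card_fin] at this
    exact this.symm
  · intro y hy hyk
    set T : Finset (Fin n) := y.toFinset with hT
    have hTc : T.card = k := by rw [hT, List.toFinset_card_of_nodup hy, hyk]
    have hTu : T ∩ Finset.univ = T := Finset.inter_univ T
    have e1 : rho T Y = (lam : ℤ) • s X k T := by
      rw [hY, map_add, map_zsmul, map_zsmul, hW2 T (by rw [hTu, hTc]), hG,
        hc Finset.univ T (by rw [hTu, hTc]) (by simp), hTu, hlam2, add_smul, mul_smul]
      simp
    have e2 : co y (rho T Y) = lam := by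
      rw [e1, map_smul, co_s y k T hy rfl hTc]; simp
    have e3 : co y (rho T Y) = ∑ l ∈ F, co l Y * (if y.Sublist l then 1 else 0) := by
      conv_lhs => rw [expand Finset.univ F hF' hY1]
      rw [map_sum, map_sum]
      refine Finset.sum_congr rfl fun l hl => ?_
      rw [map_zsmul, map_smul, rho_word, co_word, smul_eq_mul]
      congr 1
      have := sublist_iff T l y ((hF' l).1 hl).1 rfl
      by_cases h : y.Sublist l
      · rw [if_pos h, if_pos (this.2 h)]
      · rw [if_neg h, if_neg (fun h' => h (this.1 h'))]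
    have e4 : ((Multiset.countP (fun x => y.Sublist x)
        (∑ l ∈ F, (co l Y).toNat • ({l} : Multiset (List (Fin n)))) : ℕ) : ℤ) =
        ∑ l ∈ F, co l Y * (if y.Sublist l then 1 else 0) := by
      rw [← Multiset.coe_countPAddMonoidHom, map_sum]
      push_cast
      refine Finset.sum_congr rfl fun l hl => ?_
      have hs : Multiset.countP (fun x => y.Sublist x) ({l} : Multiset (List (Fin n))) =
          if y.Sublist l then 1 else 0 := by
        rw [← Multiset.cons_zero, Multiset.countP_cons, Multiset.countP_zero, zero_add]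
      rw [map_nsmul, Multiset.coe_countPAddMonoidHom, hs]
      push_cast
      rw [nsmul_eq_mul]
      push_cast
      rw [Int.toNat_of_nonneg (hpos l hl)]
    have e5 := e4.trans (e3.symm.trans e2)
    exact_mod_cast e5

end Run7.h282.PS
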